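import Pool.Agent.N926.Shap.Main

set_option autoImplicit false

namespace Pool.Agent.Results.MP_651eca_nt.MixedCubic

open Finset

/-- the entries `B_{n,k} = (k/n) C(2n, n-k)` of Shapiro's Catalan triangle, `1 ≤ k ≤ n` -/
def B (n k : ℕ) : ℚ := (k : ℚ) / n * (((2 * n).choose (n - k) : ℕ) : ℚ)

/-- the mixed cubic sum identity, for all `n, m ≥ 1` -/
theorem result : ∀ n m : ℕ, 1 ≤ n → 1 ≤ m →
    ∑ k ∈ Icc 1 (min n m), B n k ^ 2 * B m k =
      1 / 2 * (((2 * n).choose n : ℕ) : ℚ) ^ 2 * (((2 * m).choose m : ℕ) : ℚ) *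
        (1 - ((n : ℚ) + 2 * m) / ((min n m : ℕ) : ℚ) * (((n + m).choose n : ℕ) : ℚ)⁻¹ *
          (((n + min n m).choose n : ℕ) : ℚ)⁻¹ *
          ∑ j ∈ range (min n m), (((max n m + j).choose (max n m) : ℕ) : ℚ) *
            (((n + j).choose (n - 1) : ℕ) : ℚ)) :=
  Pool.Agent.N926.Shap.main

end Pool.Agent.Results.MP_651eca_nt.MixedCubic
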